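import Pool.Agent.Lib.MP_51e19e_an.Main

set_option autoImplicit false

open Filter Topology

/-- For every sign sequence (`a n` is the sign of the term `1 / (t ^ 2 + (n + 1) ^ 2)`), the number
of real zeros in `(-X, X)` is finite and is `o(X)`. -/
theorem Pool.Agent.Results.MP_51e19e_an.ZerosLittleO.result :
    ∀ a : ℕ → ℝ, (∀ n, a n = 1 ∨ a n = -1) →
      (∀ X : ℝ, {t : ℝ | |t| < X ∧ ∑' n : ℕ, a n / (t ^ 2 + ((n : ℝ) + 1) ^ 2) = 0}.Finite) ∧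
      Tendsto (fun X : ℝ =>
        ({t : ℝ | |t| < X ∧ ∑' n : ℕ, a n / (t ^ 2 + ((n : ℝ) + 1) ^ 2) = 0}.ncard : ℝ) / X)
        atTop (𝓝 0) := by
  intro a ha
  obtain ⟨K, hK⟩ := Pool.Agent.Lib.MP_51e19e_an.sum_zeros ha
  exact Pool.Agent.Lib.MP_51e19e_an.density_zero _ K hK
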